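import Pool.Agent.KS6_62.ME.Graph

/-!
# The attacker wins against `m + 2` guards
-/

set_option autoImplicit false

namespace Pool.Agent.KS6_62.ME

/-! ### Numbers given by digit sequences -/

/-- The number with the first `j` digits of `f` in base `r`. -/
def num (r : ℕ) (f : ℕ → ℕ) : ℕ → ℕ
  | 0 => 0
  | j + 1 => num r f j + f j * r ^ j

theorem num_lt {r : ℕ} {f : ℕ → ℕ} (hf : ∀ i, f i < r) (j : ℕ) : num r f j < r ^ j := by
  induction j with
  | zero => simp [num]
  | succ j ih =>
    show num r f j + f j * r ^ j < r ^ (j + 1)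
    have h1 : (f j + 1) * r ^ j ≤ r * r ^ j := Nat.mul_le_mul_right _ (hf j)
    rw [pow_succ']
    rw [Nat.add_mul] at h1
    omega

theorem num_lt_num {m r : ℕ} (hm : 0 < m) {a b : ℕ → ℕ} {e : ℕ → Bool} (ha : ∀ i, a i < r)
    (hb : ∀ i, b i = (a i + if e i then 1 else 0) % r) (h0 : e 0 = true)
    (h1 : ∀ i, i + 1 < m → a i + 1 = r → e i = true → e (i + 1) = true)
    (h2 : ¬ (a (m - 1) + 1 = r ∧ e (m - 1) = true)) : num r a m < num r b m := by
  have hb1 : ∀ i, e i = true → a i + 1 ≠ r → b i = a i + 1 := by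
    intro i hi hne
    rw [hb i, hi, if_pos rfl]
    have := ha i
    exact Nat.mod_eq_of_lt (by omega)
  have hb0 : ∀ i, e i = false → b i = a i := by
    intro i hi
    rw [hb i, hi]
    have := ha i
    exact Nat.mod_eq_of_lt (by simpa using this)
  have key : ∀ j, j < m → ¬ (a j + 1 = r ∧ e j = true) → num r a (j + 1) < num r b (j + 1) := by
    intro j
    induction j with
    | zero =>
      intro _ h
      have h3 : b 0 = a 0 + 1 := hb1 0 h0 (fun h4 => h ⟨h4, h0⟩)
      show 0 + a 0 * r ^ 0 < 0 + b 0 * r ^ 0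
      rw [h3, pow_zero]
      omega
    | succ j ih =>
      intro hj h
      show num r a (j + 1) + a (j + 1) * r ^ (j + 1) < num r b (j + 1) + b (j + 1) * r ^ (j + 1)
      have ha' := num_lt ha (j + 1)
      cases he : e (j + 1)
      · have hd : ¬ (a j + 1 = r ∧ e j = true) := by
          rintro ⟨h3, h4⟩
          have := h1 j hj h3 h4
          rw [he] at this
          cases this
        have h3 := ih (by omega) hd
        rw [hb0 _ he]
        omega
      · have h3 : b (j + 1) = a (j + 1) + 1 := hb1 _ he (fun h4 => h ⟨h4, he⟩)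
        rw [h3, Nat.add_mul]
        omega
  have := key (m - 1) (by omega) h2
  rwa [Nat.sub_add_cancel hm] at this

variable {m s ρ : ℕ}

/-- Every vertex is dominated. -/
def Dom (D : Finset (Vx m s ρ)) : Prop := ∀ x, ∃ y ∈ D, Nb y x

/-- In a dominating configuration of at most `m + 2` guards no two guards are in one region. -/
theorem reg_inj {D : Finset (Vx m s ρ)} (hD : Dom D) (hc : D.card ≤ m + 2) {x y : Vx m s ρ}
    (hx : x ∈ D) (hy : y ∈ D) (h : reg x = reg y) : x = y := by
  have h1 : D.image reg = Finset.univ := by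
    ext r
    simp only [Finset.mem_image, Finset.mem_univ, iff_true]
    obtain ⟨y, hy, hn⟩ := hD (ctr r)
    exact ⟨y, hy, nb_ctr_iff.mp hn⟩
  have h2 : (D.image reg).card = D.card := by
    have h3 : (D.image reg).card = m + 2 := by
      rw [h1, Finset.card_univ, card_reg]
    have h4 : (D.image reg).card ≤ D.card := Finset.card_image_le
    omega
  exact Finset.card_image_iff.mp h2 hx hy h

/-- The configuration is in the main line at time `c`, with the digits `a` and the changes `e`. -/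
structure Main (c : Fin 3) (D : Finset (Vx m s ρ)) (a : Fin m → Fin (ρ + 2))
    (e : Fin m → Bool) : Prop where
  clk : Vx.K c ∈ D
  hlp : Vx.h c ∈ D
  cell : ∀ i, Vx.p i c (a i) (e i) ∈ D

theorem exists_main {D : Finset (Vx m s ρ)} (hD : Dom D) (hc : D.card ≤ m + 2) {c : Fin 3}
    (hK : Vx.K c ∈ D) : ∃ a e, Main c D a e := by
  have hhlp : Vx.h c ∈ D := by
    obtain ⟨y, hy, hn⟩ := hD (.W .hlp c)
    have hr : reg y = reg (Vx.K c : Vx m s ρ) → y = .K c := fun h => reg_inj hD hc hy hK h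
    rw [nb_iff] at hn
    cases y <;> simp_all [Ed, reg, lit]
  have hcell : ∀ i : Fin m, ∃ a b, Vx.p i c a b ∈ D := by
    intro i
    obtain ⟨y, hy, hn⟩ := hD (.W (.pos i) c)
    have hr : reg y = reg (Vx.K c : Vx m s ρ) → y = .K c := fun h => reg_inj hD hc hy hK h
    rw [nb_iff] at hn
    have hp : ∃ a b, y = Vx.p i c a b := by
      cases y with
      | p j c' a b =>
        simp only [Ed, lit, reduceCtorEq, false_or] at hn
        obtain ⟨rfl, rfl⟩ := hn
        exact ⟨a, b, rfl⟩
      | _ => simp_all [Ed, reg]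
    obtain ⟨a, b, rfl⟩ := hp
    exact ⟨a, b, hy⟩
  choose a b hab using hcell
  exact ⟨a, b, hK, hhlp, hab⟩

theorem Main.eq {D : Finset (Vx m s ρ)} (hD : Dom D) (hc : D.card ≤ m + 2) {c : Fin 3}
    {a : Fin m → Fin (ρ + 2)} {e : Fin m → Bool} (hM : Main c D a e) {y : Vx m s ρ} (hy : y ∈ D) :
    y = .K c ∨ y = .h c ∨ ∃ i, y = .p i c (a i) (e i) := by
  cases hr : reg y with
  | clk => exact Or.inl (reg_inj hD hc hy hM.clk hr)
  | hlp => exact Or.inr (Or.inl (reg_inj hD hc hy hM.hlp hr))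
  | cell i => exact Or.inr (Or.inr ⟨i, reg_inj hD hc hy (hM.cell i) hr⟩)

theorem Main.clause {D : Finset (Vx m s ρ)} (hD : Dom D) (hc : D.card ≤ m + 2) {c : Fin 3}
    {a : Fin m → Fin (ρ + 2)} {e : Fin m → Bool} (hM : Main c D a e) (j : Fin (m + 1)) :
    ∃ i, lit (.cl j) i (a i) (e i) := by
  obtain ⟨y, hy, hn⟩ := hD (.W (.cl j) c)
  rw [nb_iff] at hn
  rcases hM.eq hD hc hy with h | h | ⟨i, h⟩
  · subst h
    simp [Ed] at hn
  · subst h
    simp [Ed] at hn
  · subst h
    refine ⟨i, ?_⟩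
    simpa [Ed] using hn

theorem fin3_ne (c : Fin 3) : c ≠ c + 1 := by
  revert c
  decide

theorem fin3_ne2 (c : Fin 3) : c ≠ c + 1 + 1 := by
  revert c
  decide

theorem Main.step {D E : Finset (Vx m s ρ)} (hD : Dom D) (hc : D.card ≤ m + 2) {c : Fin 3}
    {a a' : Fin m → Fin (ρ + 2)} {e e' : Fin m → Bool} (hM : Main c D a e)
    (hR : Response (Gr m s ρ) D E) (hE : Main (c + 1) E a' e') (i : Fin m) :
    a' i = nxt (a i) (e i) := by
  obtain ⟨f, hf, hinj, rfl⟩ := hR
  have hf' : ∀ v ∈ D, Nb v (f v) := by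
    intro v hv
    rcases hf v hv with h | h
    · exact Or.inl h.symm
    · exact Or.inr h
  have hfK : f (.K c) = .K (c + 1) := by
    obtain ⟨y, hy, hfy⟩ := Finset.mem_image.mp hE.clk
    have hn := hf' y hy
    rw [hfy, nb_iff] at hn
    rcases hM.eq hD hc hy with h | h | ⟨j, h⟩
    · rw [← h]; exact hfy
    · subst h
      simp [Ed] at hn
    · subst h
      exfalso
      simp only [Ed, reduceCtorEq, false_or] at hn
      rcases hn with hn | hn
      · exact fin3_ne c hn
      · exact fin3_ne2 c hn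
  obtain ⟨y, hy, hfy⟩ := Finset.mem_image.mp (hE.cell i)
  have hn := hf' y hy
  rw [hfy, nb_iff] at hn
  rcases hM.eq hD hc hy with h | h | ⟨j, h⟩
  · subst h
    rw [hfK] at hfy
    cases hfy
  · subst h
    exfalso
    simp only [Ed, reduceCtorEq, false_or, or_false] at hn
    exact fin3_ne2 c hn
  · subst h
    simp only [Ed, Vx.p.injEq] at hn
    rcases hn with hn | hn | hn
    · exact absurd hn.2.1 (fin3_ne c)
    · obtain ⟨rfl, h1 | h1⟩ := hn
      · exact absurd h1 (fin3_ne c)
      · exact h1.2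
    · obtain ⟨rfl, h1 | h1⟩ := hn
      · exact absurd h1.symm (fin3_ne c)
      · exact absurd h1.1 (fin3_ne2 c)

/-- Extension of a digit sequence by zeros. -/
def exd (a : Fin m → Fin (ρ + 2)) (i : ℕ) : ℕ := if h : i < m then (a ⟨i, h⟩).val else 0

/-- Extension of a bit sequence by zeros. -/
def exe (e : Fin m → Bool) (i : ℕ) : Bool := if h : i < m then e ⟨i, h⟩ else false

theorem exd_lt (a : Fin m → Fin (ρ + 2)) (i : ℕ) : exd a i < ρ + 2 := by
  unfold exd
  split_ifs with h
  · exact (a ⟨i, h⟩).2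
  · omega

theorem exd_nxt (a : Fin m → Fin (ρ + 2)) (e : Fin m → Bool) (i : ℕ) :
    exd (fun i => nxt (a i) (e i)) i = (exd a i + if exe e i then 1 else 0) % (ρ + 2) := by
  unfold exd exe
  by_cases h : i < m
  · simp only [h, dif_pos]
    rfl
  · simp [h]

theorem Main.num_lt {D : Finset (Vx m s ρ)} (hm : 0 < m) (hD : Dom D) (hc : D.card ≤ m + 2)
    {c : Fin 3} {a : Fin m → Fin (ρ + 2)} {e : Fin m → Bool} (hM : Main c D a e) :
    num (ρ + 2) (exd a) m < num (ρ + 2) (exd fun i => nxt (a i) (e i)) m := by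
  apply num_lt_num hm (exd_lt a) (exd_nxt a e)
  · obtain ⟨i, hi⟩ := hM.clause hD hc ⟨0, by omega⟩
    simp only [lit] at hi
    rcases hi with hi | hi
    · omega
    · have : i = ⟨0, hm⟩ := Fin.ext hi.1
      subst this
      simpa [exe, hm] using hi.2
  · intro j hj hja hjb
    have hj' : j < m := by omega
    obtain ⟨i, hi⟩ := hM.clause hD hc ⟨j + 1, by omega⟩
    simp only [lit] at hi
    rcases hi with hi | hi
    · have : i = ⟨j, hj'⟩ := Fin.ext (by simpa using hi.1)
      subst this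
      exfalso
      apply hi.2
      simp only [exd, exe, hj', dif_pos] at hja hjb
      exact ⟨by omega, hjb⟩
    · have : i = ⟨j + 1, hj⟩ := Fin.ext hi.1
      subst this
      simpa [exe, hj] using hi.2
  · rintro ⟨h1, h2⟩
    have hj' : m - 1 < m := by omega
    obtain ⟨i, hi⟩ := hM.clause hD hc ⟨m, by omega⟩
    simp only [lit] at hi
    rcases hi with hi | hi
    · have : i = ⟨m - 1, hj'⟩ := Fin.ext (by simp only; omega)
      subst this
      apply hi.2
      simp only [exd, exe, hj', dif_pos] at h1 h2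
      exact ⟨by omega, h2⟩
    · have := i.2
      omega

/-- Every m-eternal dominating set of the graph has at least `m + 3` guards. -/
theorem card_of_eternal (hm : 0 < m) {C : Finset (Vx m s ρ)} (hC : Eternal (Gr m s ρ) C) :
    m + 3 ≤ C.card := by
  by_contra hlt
  push Not at hlt
  obtain ⟨F, hCF, hF⟩ := hC
  have hdom : ∀ D ∈ F, Dom D := by
    intro D hD x
    obtain ⟨E, -, ⟨f, hf, -, rfl⟩, hx⟩ := hF D hD x
    obtain ⟨y, hy, rfl⟩ := Finset.mem_image.mp hx
    refine ⟨y, hy, ?_⟩
    rcases hf y hy with h | h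
    · exact Or.inl h.symm
    · exact Or.inr h
  have key : ∀ t : ℕ, ∃ (c : Fin 3) (D : Finset (Vx m s ρ)) (a : Fin m → Fin (ρ + 2))
      (e : Fin m → Bool), D ∈ F ∧ D.card ≤ m + 2 ∧ Main c D a e ∧
      t ≤ num (ρ + 2) (exd a) m := by
    intro t
    induction t with
    | zero =>
      obtain ⟨D, hD, hR, hK⟩ := hF C hCF (.K 0)
      have hc : D.card ≤ m + 2 := by rw [hR.card_eq]; omega
      obtain ⟨a, b, hM⟩ := exists_main (hdom D hD) hc hK
      exact ⟨0, D, a, b, hD, hc, hM, Nat.zero_le _⟩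
    | succ t ih =>
      obtain ⟨c, D, a, e, hD, hc, hM, ht⟩ := ih
      obtain ⟨E, hE, hR, hK⟩ := hF D hD (.K (c + 1))
      have hc' : E.card ≤ m + 2 := by rw [hR.card_eq]; exact hc
      obtain ⟨a', e', hM'⟩ := exists_main (hdom E hE) hc' hK
      refine ⟨c + 1, E, a', e', hE, hc', hM', ?_⟩
      have h1 : a' = fun i => nxt (a i) (e i) :=
        funext fun i => hM.step (hdom D hD) hc hR hM' i
      have h2 := hM.num_lt hm (hdom D hD) hc
      rw [← h1] at h2
      omega
  obtain ⟨c, D, a, b, -, -, -, h⟩ := key ((ρ + 2) ^ m)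
  have := num_lt (exd_lt a) m
  omega

theorem le_gammaM_gr (hm : 0 < m) : m + 3 ≤ gammaM (Gr m s ρ) :=
  le_gammaM fun _ hC => card_of_eternal hm hC

end Pool.Agent.KS6_62.ME
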