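import Pool.Agent.KS6_62.ME.Game

/-!
# The game on isomorphic graphs
-/

set_option autoImplicit false

namespace Pool.Agent.KS6_62.ME

variable {V W : Type*} [DecidableEq V] [DecidableEq W] {G : SimpleGraph V} {H : SimpleGraph W}

theorem Response.map (φ : G ≃g H) {C D : Finset V} (h : Response G C D) :
    Response H (C.image φ) (D.image φ) := by
  obtain ⟨f, h1, h2, rfl⟩ := h
  refine ⟨fun w => φ (f (φ.symm w)), ?_, ?_, ?_⟩
  · intro w hw
    obtain ⟨v, hv, rfl⟩ := Finset.mem_image.mp hw
    rcases h1 v hv with h | h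
    · left
      simp [h]
    · right
      simp only [RelIso.symm_apply_apply]
      exact φ.map_rel_iff.mpr h
  · intro w hw w' hw' he
    obtain ⟨v, hv, rfl⟩ := Finset.mem_image.mp (Finset.mem_coe.mp hw)
    obtain ⟨v', hv', rfl⟩ := Finset.mem_image.mp (Finset.mem_coe.mp hw')
    simp only [RelIso.symm_apply_apply] at he
    rw [h2 hv hv' (φ.injective he)]
  · ext w
    simp only [Finset.mem_image]
    constructor
    · rintro ⟨_, ⟨v, hv, rfl⟩, rfl⟩
      exact ⟨f v, ⟨v, hv, rfl⟩, by simp⟩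
    · rintro ⟨_, ⟨v, hv, rfl⟩, rfl⟩
      exact ⟨φ v, ⟨v, hv, rfl⟩, by simp⟩

theorem image_symm_image (φ : G ≃g H) (C : Finset V) : (C.image φ).image φ.symm = C := by
  ext v
  simp

theorem image_image_symm (φ : G ≃g H) (C : Finset W) : (C.image φ.symm).image φ = C := by
  ext v
  simp

theorem AttackerWins.map (φ : G ≃g H) {k : ℕ} {C : Finset V} (h : AttackerWins G k C) :
    AttackerWins H k (C.image φ) := by
  induction k generalizing C with
  | zero => exact h
  | succ k ih =>
    obtain ⟨a, ha⟩ := h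
    refine ⟨φ a, fun D hD haD => ?_⟩
    have h1 := hD.map φ.symm
    rw [image_symm_image] at h1
    have h2 : a ∈ D.image φ.symm := by
      rw [Finset.mem_image]
      exact ⟨φ a, haD, by simp⟩
    have h3 := ih (ha _ h1 h2)
    rwa [image_image_symm] at h3

theorem attackerWins_iff (φ : G ≃g H) {k : ℕ} {C : Finset V} :
    AttackerWins H k (C.image φ) ↔ AttackerWins G k C := by
  constructor
  · intro h
    have := h.map φ.symm
    rwa [image_symm_image] at this
  · exact fun h => h.map φ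

theorem Eternal.map (φ : G ≃g H) {C : Finset V} (h : Eternal G C) : Eternal H (C.image φ) := by
  obtain ⟨F, hC, hF⟩ := h
  refine ⟨{D | ∃ E ∈ F, D = E.image φ}, ⟨C, hC, rfl⟩, ?_⟩
  rintro _ ⟨E, hE, rfl⟩ a
  obtain ⟨E', hE', hR, ha⟩ := hF E hE (φ.symm a)
  refine ⟨E'.image φ, ⟨E', hE', rfl⟩, hR.map φ, ?_⟩
  rw [Finset.mem_image]
  exact ⟨_, ha, by simp⟩

theorem gammaM_le [Fintype V] [Fintype W] (φ : G ≃g H) : gammaM G ≤ gammaM H := by
  apply le_gammaM
  intro C hC
  have h := gammaM_le_of_eternal (hC.map φ.symm)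
  rwa [Finset.card_image_of_injective _ φ.symm.injective] at h

end Pool.Agent.KS6_62.ME
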