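import Pool.Agent.KS6_62.ME.Exact
import Pool.Agent.KS6_62.ME.Transport

/-!
# The lower bounds
-/

set_option autoImplicit false

namespace Pool.Agent.KS6_62.ME

/-- The basic lower bound, for a counter with `m` digits in base `r`. -/
theorem lower (r m n : ℕ) (hr : 2 ≤ r) (hm : 1 ≤ m) (hn : (6 * r + 7) * m + 16 ≤ n) :
    ∃ (G : SimpleGraph (Fin n)) (C : Finset (Fin n)), G.Connected ∧ gammaM G = m + 3 ∧
      C.card = m + 2 ∧ ¬ AttackerWins G (r / 2 * r ^ (m - 1) - 1) C := by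
  obtain ⟨ρ, rfl⟩ : ∃ ρ, r = ρ + 2 := ⟨r - 2, by omega⟩
  obtain ⟨s, rfl⟩ : ∃ s, n = (6 * (ρ + 2) + 7) * m + 16 + s := ⟨_, (Nat.add_sub_of_le hn).symm⟩
  let e : Vx m s ρ ≃ Fin ((6 * (ρ + 2) + 7) * m + 16 + s) := Fintype.equivFinOfCardEq card_vx
  let φ : Gr m s ρ ≃g (Gr m s ρ).map e.toEmbedding := SimpleGraph.Iso.map e (Gr m s ρ)
  obtain ⟨C, hC, hw⟩ := exists_survivor (m := m) (s := s) (ρ := ρ) hm
  refine ⟨(Gr m s ρ).map e.toEmbedding, C.image φ, ?_, ?_, ?_, ?_⟩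
  · exact φ.connected_iff.mp connected
  · rw [← gammaM_gr (m := m) (s := s) (ρ := ρ) hm]
    exact le_antisymm (gammaM_le φ.symm) (gammaM_le φ)
  · rw [Finset.card_image_of_injective _ φ.injective, hC]
  · rw [attackerWins_iff]
    exact hw

/-- Exponential lower bound. -/
theorem lower_exp (n : ℕ) (hn : 2500 ≤ n) :
    ∃ G : SimpleGraph (Fin n), G.Connected ∧ ¬ DefeatedIn G (2 ^ (n / 16)) := by
  obtain ⟨G, C, hG, hγ, hC, hw⟩ := lower 4 ((n - 16) / 31) n (by norm_num) (by omega) (by omega)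
  refine ⟨G, hG, fun h => hw ((h C (by omega)).mono ?_)⟩
  have h1 : n / 16 + 1 ≤ 2 * ((n - 16) / 31 - 1) + 1 := by omega
  have h2 : 2 ^ (n / 16 + 1) ≤ 2 ^ (2 * ((n - 16) / 31 - 1) + 1) :=
    Nat.pow_le_pow_right (by norm_num) h1
  have h3 : 0 < 2 ^ (n / 16) := by positivity
  have h4 : 2 ^ (2 * ((n - 16) / 31 - 1) + 1) = 2 * 4 ^ ((n - 16) / 31 - 1) := by
    rw [pow_succ', pow_mul]
    norm_num
  rw [h4, pow_succ] at h2
  simp only [Nat.reduceDiv]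
  omega

/-- Polynomial lower bound for a given number of guards. -/
theorem lower_poly (k n : ℕ) (hk : 3 ≤ k) (hn : 161 * (k - 2) ≤ n) :
    ∃ (G : SimpleGraph (Fin n)) (C : Finset (Fin n)), G.Connected ∧ gammaM G = k + 1 ∧
      C.card = k ∧ ¬ AttackerWins G ((n / (7 * (k - 2))) ^ (k - 2) / 3) C := by
  obtain ⟨m, rfl⟩ : ∃ m, k = m + 2 := ⟨k - 2, by omega⟩
  simp only [Nat.add_sub_cancel] at hn ⊢
  have hm : 1 ≤ m := by omega
  set r := n / (7 * m) with hr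
  have hr1 : 23 ≤ r := by
    rw [hr, Nat.le_div_iff_mul_le (by omega)]
    omega
  have hr2 : r * (7 * m) ≤ n := Nat.div_mul_le_self _ _
  have hn' : (6 * r + 7) * m + 16 ≤ n := by
    have : 23 * m ≤ r * m := Nat.mul_le_mul_right _ hr1
    have h1 : r * (7 * m) = 7 * (r * m) := by ring
    have h2 : (6 * r + 7) * m + 16 = 6 * (r * m) + 7 * m + 16 := by ring
    rw [h1] at hr2
    rw [h2]
    omega
  obtain ⟨G, C, hG, hγ, hC, hw⟩ := lower r m n (by omega) hm hn'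
  refine ⟨G, C, hG, hγ, hC, fun h => hw (h.mono ?_)⟩
  have h1 : r ^ m = r * r ^ (m - 1) := by
    rw [← pow_succ', Nat.sub_add_cancel hm]
  have h2 : 0 < r ^ (m - 1) := by positivity
  have h3 : r * r ^ (m - 1) ≤ (3 * (r / 2) - 3) * r ^ (m - 1) :=
    Nat.mul_le_mul_right _ (by omega)
  have h4 : (3 * (r / 2) - 3) * r ^ (m - 1) = 3 * (r / 2 * r ^ (m - 1)) - 3 * r ^ (m - 1) := by
    rw [Nat.sub_mul, mul_assoc]
  rw [h1]
  rw [h4] at h3
  omega

end Pool.Agent.KS6_62.ME
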