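import Pool.Agent.KS6_62.ME.Graph

/-!
# The defender survives many attacks with `m + 2` guards
-/

set_option autoImplicit false

namespace Pool.Agent.KS6_62.ME

/-! ### Digits -/

/-- The digit of `β` at the place `i`, in base `ρ + 2`. -/
def dg (ρ β i : ℕ) : Fin (ρ + 2) := ⟨β / (ρ + 2) ^ i % (ρ + 2), Nat.mod_lt _ (by omega)⟩

/-- Does the digit at the place `i` change from `β` to `β + 1`? -/
def eb (ρ β i : ℕ) : Bool := decide ((ρ + 2) ^ i ∣ β + 1)

theorem nxt_dg (ρ β i : ℕ) : nxt (dg ρ β i) (eb ρ β i) = dg ρ (β + 1) i := by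
  apply Fin.ext
  show (β / (ρ + 2) ^ i % (ρ + 2) + if eb ρ β i then 1 else 0) % (ρ + 2) =
    (β + 1) / (ρ + 2) ^ i % (ρ + 2)
  have h5 : (β + 1) / (ρ + 2) ^ i = β / (ρ + 2) ^ i + if (ρ + 2) ^ i ∣ β + 1 then 1 else 0 :=
    Nat.succ_div
  rw [h5, Nat.mod_add_mod]
  simp only [eb, decide_eq_true_eq]

theorem dvd_succ {ρ β i : ℕ} (h1 : (dg ρ β i).val = ρ + 1) (h2 : eb ρ β i = true) :
    (ρ + 2) ^ (i + 1) ∣ β + 1 := by
  have h3 : (ρ + 2) ^ i ∣ β + 1 := of_decide_eq_true h2
  have h5 : (β + 1) / (ρ + 2) ^ i = β / (ρ + 2) ^ i + if (ρ + 2) ^ i ∣ β + 1 then 1 else 0 :=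
    Nat.succ_div
  rw [if_pos h3] at h5
  have h1' : β / (ρ + 2) ^ i % (ρ + 2) = ρ + 1 := h1
  have h6 : (ρ + 2) ∣ (β + 1) / (ρ + 2) ^ i := by
    rw [h5]
    apply Nat.dvd_of_mod_eq_zero
    rw [Nat.add_mod, h1', Nat.mod_eq_of_lt (show 1 < ρ + 2 by omega)]
    simp
  rw [pow_succ]
  have h7 : β + 1 = (ρ + 2) ^ i * ((β + 1) / (ρ + 2) ^ i) := (Nat.mul_div_cancel' h3).symm
  rw [h7]
  exact Nat.mul_dvd_mul_left _ h6

variable {m s ρ : ℕ}

theorem clause_main {β : ℕ} (hm : 0 < m) (hβ : β + 1 < (ρ + 2) ^ m) (j : Fin (m + 1)) :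
    ∃ i : Fin m, lit (.cl j) i (dg ρ β i) (eb ρ β i) := by
  rcases j with ⟨j, hj⟩
  cases j with
  | zero =>
    refine ⟨⟨0, hm⟩, Or.inr ⟨rfl, ?_⟩⟩
    simp [eb]
  | succ j =>
    by_cases hd : (dg ρ β j).val = ρ + 1 ∧ eb ρ β j = true
    · have h := dvd_succ hd.1 hd.2
      have hjm : j + 1 < m := by
        by_contra hge
        have h1 : m ≤ j + 1 := by omega
        have h2 : (ρ + 2) ^ m ≤ (ρ + 2) ^ (j + 1) := Nat.pow_le_pow_right (by omega) h1
        have h3 := Nat.le_of_dvd (by omega) h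
        omega
      exact ⟨⟨j + 1, hjm⟩, Or.inr ⟨rfl, decide_eq_true h⟩⟩
    · exact ⟨⟨j, by omega⟩, Or.inl ⟨rfl, hd⟩⟩

/-- The main line state at time `c` with the number `β`. -/
def mainq (c : Fin 3) (β : ℕ) : Reg m → Vx m s ρ
  | .clk => .K c
  | .hlp => .h c
  | .cell i => .p i c (dg ρ β i) (eb ρ β i)

/-- A state with one distinguished cell; the guards of the other cells are in the centres. -/
def mk (z y : Vx m s ρ) (i : Fin m) (x : Vx m s ρ) : Reg m → Vx m s ρ
  | .clk => z
  | .hlp => y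
  | .cell j => if j = i then x else .z j

/-- The configuration of a state. -/
def conf (q : Reg m → Vx m s ρ) : Finset (Vx m s ρ) := Finset.univ.image q

/-- One vertex in every region. -/
def Valid (q : Reg m → Vx m s ρ) : Prop := ∀ r, reg (q r) = r

theorem Valid.inj {q : Reg m → Vx m s ρ} (h : Valid q) : Function.Injective q := by
  intro r r' hr
  rw [← h r, ← h r', hr]

theorem valid_mainq (c : Fin 3) (β : ℕ) : Valid (mainq c β : Reg m → Vx m s ρ) := by
  intro r
  cases r <;> rfl

theorem valid_mk {z y : Vx m s ρ} {i : Fin m} {x : Vx m s ρ} (hz : reg z = .clk)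
    (hy : reg y = .hlp) (hx : reg x = .cell i) : Valid (mk z y i x) := by
  intro r
  cases r with
  | clk => exact hz
  | hlp => exact hy
  | cell j =>
    show reg (if j = i then x else .z j) = .cell j
    split_ifs with h
    · rw [hx, h]
    · rfl

theorem response {q q' : Reg m → Vx m s ρ} (hq : Valid q) (hq' : Valid q')
    (π : Equiv.Perm (Reg m)) (h : ∀ r, Nb (q r) (q' (π r))) :
    Response (Gr m s ρ) (conf q) (conf q') := by
  refine ⟨fun v => q' (π (reg v)), ?_, ?_, ?_⟩
  · intro v hv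
    obtain ⟨r, -, rfl⟩ := Finset.mem_image.mp hv
    have := h r
    show q' (π (reg (q r))) = q r ∨ (Gr m s ρ).Adj (q r) (q' (π (reg (q r))))
    rw [hq r]
    rcases this with h1 | h1
    · exact Or.inl h1.symm
    · exact Or.inr h1
  · intro v hv v' hv' he
    obtain ⟨r, -, rfl⟩ := Finset.mem_image.mp (Finset.mem_coe.mp hv)
    obtain ⟨r', -, rfl⟩ := Finset.mem_image.mp (Finset.mem_coe.mp hv')
    simp only [hq r, hq r'] at he
    rw [π.injective (hq'.inj he)]
  · ext v
    simp only [conf, Finset.mem_image, Finset.mem_univ, true_and, exists_exists_eq_and]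
    constructor
    · rintro ⟨r, hr⟩
      rw [hq r] at hr
      exact ⟨_, hr⟩
    · rintro ⟨r, hr⟩
      refine ⟨π.symm r, ?_⟩
      rw [hq, Equiv.apply_symm_apply]
      exact hr

/-- The defender survives `n` attacks from the state `q`. -/
def Sv (n : ℕ) (q : Reg m → Vx m s ρ) : Prop := ¬ AttackerWins (Gr m s ρ) n (conf q)

/-- An answer to the attack of `x` from the state `q`, after which `n` more attacks are
survived. -/
def Ans (n : ℕ) (q : Reg m → Vx m s ρ) (x : Vx m s ρ) : Prop :=
  ∃ q', Valid q' ∧ (∃ π : Equiv.Perm (Reg m), ∀ r, Nb (q r) (q' (π r))) ∧ (∃ r, q' r = x) ∧ Sv n q'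

theorem sv_succ {n : ℕ} {q : Reg m → Vx m s ρ} (hq : Valid q) (h : ∀ x, Ans n q x) :
    Sv (n + 1) q := by
  rintro ⟨x, hx⟩
  obtain ⟨q', hq', ⟨π, hπ⟩, ⟨r, hr⟩, hs⟩ := h x
  exact hs (hx _ (response hq hq' π hπ) (Finset.mem_image.mpr ⟨r, Finset.mem_univ _, hr⟩))

theorem ans_id {n : ℕ} {q q' : Reg m → Vx m s ρ} {x : Vx m s ρ} (hq' : Valid q')
    (h : ∀ r, Nb (q r) (q' r)) (hx : ∃ r, q' r = x) (hs : Sv n q') : Ans n q x :=
  ⟨q', hq', ⟨1, h⟩, hx, hs⟩

/-! ### Neighbours -/

theorem nb_hlp {y y' : Vx m s ρ} (h : reg y = .hlp) (h' : reg y' = .hlp) : Nb y y' := by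
  cases y <;> cases y' <;> simp_all [reg, nb_iff, Ed]

theorem nb_z {x : Vx m s ρ} {i : Fin m} (h : reg x = .cell i) : Nb x (.z i) := nb_ctr_iff.mpr h

theorem nb_mk {z z' y y' x x' : Vx m s ρ} {i i' : Fin m} (hz : Nb z z') (hy : Nb y y')
    (hx : i = i' → Nb x x') (hrx : reg x = .cell i) (hrx' : reg x' = .cell i') :
    ∀ r, Nb (mk z y i x r) (mk z' y' i' x' r) := by
  intro r
  cases r with
  | clk => exact hz
  | hlp => exact hy
  | cell j =>
    show Nb (if j = i then x else .z j) (if j = i' then x' else .z j)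
    by_cases h1 : j = i <;> by_cases h2 : j = i'
    · rw [if_pos h1, if_pos h2]
      exact hx (h1.symm.trans h2)
    · rw [if_pos h1, if_neg h2]
      rw [h1]
      exact nb_z hrx
    · rw [if_neg h1, if_pos h2]
      rw [h2]
      exact (nb_z hrx').symm
    · rw [if_neg h1, if_neg h2]
      exact Nb.refl _

theorem nb_main_mk {c : Fin 3} {β : ℕ} {z' y' x' : Vx m s ρ} {i : Fin m} (hz : Nb (.K c) z')
    (hy : reg y' = .hlp) (hx : Nb (.p i c (dg ρ β i) (eb ρ β i)) x') :
    ∀ r, Nb (mainq c β r) (mk z' y' i x' r) := by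
  intro r
  cases r with
  | clk => exact hz
  | hlp => exact nb_hlp rfl hy
  | cell j =>
    show Nb _ (if j = i then x' else .z j)
    split_ifs with h
    · subst h
      exact hx
    · exact nb_z rfl

/-- The guards of the clock and of the cell `i` exchange their regions. -/
theorem nb_main_mk_clk {c : Fin 3} {β : ℕ} {z' y' x' : Vx m s ρ} {i : Fin m} (hx : Nb (.K c) x')
    (hy : reg y' = .hlp) (hz : Nb (.p i c (dg ρ β i) (eb ρ β i)) z') :
    ∀ r, Nb (mainq c β r) (mk z' y' i x' (Equiv.swap .clk (.cell i) r)) := by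
  intro r
  cases r with
  | clk =>
    rw [Equiv.swap_apply_left]
    show Nb _ (if i = i then _ else _)
    rw [if_pos rfl]
    exact hx
  | hlp =>
    rw [Equiv.swap_apply_of_ne_of_ne (by simp) (by simp)]
    exact nb_hlp rfl hy
  | cell j =>
    by_cases hj : j = i
    · subst hj
      rw [Equiv.swap_apply_right]
      exact hz
    · rw [Equiv.swap_apply_of_ne_of_ne (by simp) (by simpa using hj)]
      show Nb _ (if j = i then _ else _)
      rw [if_neg hj]
      exact nb_z rfl

/-- The guards of the helper and of the cell `i` exchange their regions. -/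
theorem nb_main_mk_hlp {c : Fin 3} {β : ℕ} {z' y' x' : Vx m s ρ} {i : Fin m} (hz : Nb (.K c) z')
    (hx : Nb (.h c) x') (hy : Nb (.p i c (dg ρ β i) (eb ρ β i)) y') :
    ∀ r, Nb (mainq c β r) (mk z' y' i x' (Equiv.swap .hlp (.cell i) r)) := by
  intro r
  cases r with
  | clk =>
    rw [Equiv.swap_apply_of_ne_of_ne (by simp) (by simp)]
    exact hz
  | hlp =>
    rw [Equiv.swap_apply_left]
    show Nb _ (if i = i then _ else _)
    rw [if_pos rfl]
    exact hx
  | cell j =>
    by_cases hj : j = i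
    · subst hj
      rw [Equiv.swap_apply_right]
      exact hy
    · rw [Equiv.swap_apply_of_ne_of_ne (by simp) (by simpa using hj)]
      show Nb _ (if j = i then _ else _)
      rw [if_neg hj]
      exact nb_z rfl

theorem nb_mk_main {c : Fin 3} {β : ℕ} {z y x : Vx m s ρ} {i : Fin m} (hz : Nb z (.K c))
    (hy : reg y = .hlp) (hx : Nb x (.p i c (dg ρ β i) (eb ρ β i))) :
    ∀ r, Nb (mk z y i x r) (mainq c β r) := fun r =>
  (nb_main_mk hz.symm hy hx.symm r).symm

theorem nb_mk_main_clk {c : Fin 3} {β : ℕ} {z y x : Vx m s ρ} {i : Fin m} (hx : Nb x (.K c))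
    (hy : reg y = .hlp) (hz : Nb z (.p i c (dg ρ β i) (eb ρ β i))) :
    ∀ r, Nb (mk z y i x r) (mainq c β (Equiv.swap .clk (.cell i) r)) := by
  intro r
  have h := nb_main_mk_clk hx.symm hy hz.symm (Equiv.swap .clk (.cell i) r)
  rw [Equiv.swap_apply_self] at h
  exact h.symm

theorem nb_mk_main_hlp {c : Fin 3} {β : ℕ} {z y x : Vx m s ρ} {i : Fin m} (hz : Nb z (.K c))
    (hx : Nb x (.h c)) (hy : Nb y (.p i c (dg ρ β i) (eb ρ β i))) :
    ∀ r, Nb (mk z y i x r) (mainq c β (Equiv.swap .hlp (.cell i) r)) := by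
  intro r
  have h := nb_main_mk_hlp hz.symm hx.symm hy.symm (Equiv.swap .hlp (.cell i) r)
  rw [Equiv.swap_apply_self] at h
  exact h.symm

theorem nb_fwd (c : Fin 3) (β : ℕ) (r : Reg m) :
    Nb (mainq c β r : Vx m s ρ) (mainq (c + 1) (β + 1) r) := by
  cases r with
  | clk => exact nb_of_ed trivial
  | hlp => exact nb_of_ed trivial
  | cell i => exact nb_of_ed ⟨rfl, Or.inr ⟨rfl, (nxt_dg ρ β i).symm⟩⟩

theorem fin3_add (c : Fin 3) : c + 2 + 1 = c := by
  revert c
  decide

theorem fin3_add' (c : Fin 3) : c + 1 + 1 = c + 2 := by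
  revert c
  decide

theorem fin3_n1 (c : Fin 3) : c + 1 ≠ c := by
  revert c
  decide

theorem fin3_n2 (c : Fin 3) : c + 2 ≠ c := by
  revert c
  decide

theorem fin3_cases (c c' : Fin 3) : c' = c ∨ c' = c + 1 ∨ c' = c + 2 := by
  revert c c'
  decide

theorem nb_bwd (c : Fin 3) (β : ℕ) (hβ : 0 < β) (r : Reg m) :
    Nb (mainq c β r : Vx m s ρ) (mainq (c + 2) (β - 1) r) := by
  have h := nb_fwd (m := m) (s := s) (ρ := ρ) (c + 2) (β - 1) r
  rw [fin3_add, Nat.sub_add_cancel hβ] at h
  exact h.symm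

/-- From every position of a cell one can go to every time class. -/
theorem exists_time {x : Vx m s ρ} {i : Fin m} (hx : reg x = .cell i) (c : Fin 3) :
    ∃ a e, Nb x (.p i c a e) := by
  cases x with
  | z j =>
    cases hx
    exact ⟨0, true, nb_of_ed rfl⟩
  | p j c1 a e =>
    cases hx
    rcases fin3_cases c c1 with h | h | h
    · subst h
      exact ⟨a, e, Nb.refl _⟩
    · exact ⟨a, false, nb_of_ed' ⟨rfl, Or.inr ⟨h, (nxt_false a).symm⟩⟩⟩
    · refine ⟨nxt a e, true, nb_of_ed ⟨rfl, Or.inr ⟨?_, rfl⟩⟩⟩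
      rw [h, fin3_add]
  | _ => cases hx

/-- States off the main line. -/
inductive Off : (Reg m → Vx m s ρ) → Prop
  | A (i : Fin m) (x : Vx m s ρ) (hx : reg x = .cell i) : Off (mk .u .g i x)
  | B (k : Wit m) (c : Fin 3) (i : Fin m) (a : Fin (ρ + 2)) (e : Bool)
      (hi : ∃ (a : Fin (ρ + 2)) (e : Bool), lit k i a e) :
      Off (mk (.W k c) .g i (.p i (c + 1) a e))
  | BH (c : Fin 3) (i : Fin m) : Off (mk (.W .hlp c) .g i (.z i))
  | C (z : Vx m s ρ) (i : Fin m) (y : Vx m s ρ) (hz : z = .z0 ∨ z = .u) (hy : reg y = .hlp) :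
      Off (mk z y i (.z i))

/-- General form of the states off the main line. -/
theorem Off.gen {q : Reg m → Vx m s ρ} (h : Off q) : ∃ z y i x, q = mk z y i x ∧ reg z = .clk ∧
    (∀ k c, Nb z (.W k c)) ∧ Nb z .u ∧ Nb z .z0 ∧ reg y = .hlp ∧ reg x = .cell i ∧
    (x = .z i ∨ y = .g) := by
  cases h with
  | A i x hx =>
    exact ⟨_, _, i, x, rfl, rfl, fun _ _ => nb_of_ed trivial, Nb.refl _, nb_of_ed' trivial, rfl,
      hx, Or.inr rfl⟩
  | B k c i a e hi =>
    exact ⟨_, _, i, _, rfl, rfl, fun _ _ => nb_of_ed trivial, nb_of_ed' trivial,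
      nb_of_ed' trivial, rfl, rfl, Or.inr rfl⟩
  | BH c i =>
    exact ⟨_, _, i, _, rfl, rfl, fun _ _ => nb_of_ed trivial, nb_of_ed' trivial,
      nb_of_ed' trivial, rfl, rfl, Or.inr rfl⟩
  | C z i y hz hy =>
    rcases hz with rfl | rfl
    · exact ⟨_, _, i, _, rfl, rfl, fun _ _ => nb_of_ed trivial, nb_of_ed trivial, Nb.refl _, hy,
        rfl, Or.inl rfl⟩
    · exact ⟨_, _, i, _, rfl, rfl, fun _ _ => nb_of_ed trivial, Nb.refl _, nb_of_ed' trivial, hy,
        rfl, Or.inl rfl⟩

theorem Off.valid {q : Reg m → Vx m s ρ} (h : Off q) : Valid q := by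
  obtain ⟨z, y, i, x, rfl, hz, -, -, -, hy, hx, -⟩ := h.gen
  exact valid_mk hz hy hx

/-! ### States near the middle -/

/-- The middle of the main line. -/
def mid (m ρ : ℕ) : ℕ := (ρ + 2) / 2 * (ρ + 2) ^ (m - 1)

theorem two_mid (hm : 0 < m) : 2 * mid m ρ ≤ (ρ + 2) ^ m := by
  have h1 : (ρ + 2) ^ m = (ρ + 2) * (ρ + 2) ^ (m - 1) := by
    rw [← pow_succ', Nat.sub_add_cancel hm]
  rw [h1, mid, ← mul_assoc]
  apply Nat.mul_le_mul_right
  omega

theorem near_bounds {n : ℕ} (hm : 0 < m) (hn : n + 1 ≤ mid m ρ - 1) {β : ℕ}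
    (h : β = mid m ρ - 1 ∨ β = mid m ρ) :
    n ≤ β ∧ n + β ≤ (ρ + 2) ^ m - 2 := by
  have h1 := two_mid (ρ := ρ) hm
  omega

theorem near_B {n : ℕ} (hn : n + 1 ≤ mid m ρ - 1) {k : Wit m} {i : Fin m}
    (hi : ∃ (a : Fin (ρ + 2)) (e : Bool), lit k i a e) :
    ∃ β, (β = mid m ρ - 1 ∨ β = mid m ρ) ∧ lit k i (dg ρ β i) (eb ρ β i) := by
  have him := i.2
  obtain ⟨a, e, hab⟩ := hi
  cases k with
  | hlp => exact hab.elim
  | pos j => exact ⟨mid m ρ, Or.inr rfl, hab⟩
  | cl j =>
    rcases hab with h | h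
    · refine ⟨mid m ρ, Or.inr rfl, Or.inl ⟨h.1, ?_⟩⟩
      rintro ⟨h1, h2⟩
      have h3 : ρ + 2 ∣ mid m ρ + 1 := dvd_trans (dvd_pow_self _ (by omega)) (dvd_succ h1 h2)
      by_cases hm1 : m = 1
      · subst hm1
        have h4 : mid 1 ρ = (ρ + 2) / 2 := by simp [mid]
        have h5 := Nat.le_of_dvd (by omega) h3
        omega
      · have h4 : ρ + 2 ∣ mid m ρ := by
          unfold mid
          exact dvd_mul_of_dvd_right (dvd_pow_self _ (by omega)) _
        have h5 : ρ + 2 ∣ 1 := (Nat.dvd_add_right h4).mp h3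
        have h6 := Nat.le_of_dvd (by omega) h5
        omega
    · refine ⟨mid m ρ - 1, Or.inl rfl, Or.inr ⟨h.1, ?_⟩⟩
      have h1 : mid m ρ - 1 + 1 = mid m ρ := by omega
      show decide _ = true
      apply decide_eq_true
      rw [h1]
      unfold mid
      exact dvd_mul_of_dvd_right (pow_dvd_pow _ (by omega)) _

/-! ### The strategy -/

/-- The defender survives. -/
theorem survive (hm : 0 < m) : ∀ n, n ≤ mid m ρ - 1 →
    (∀ c β, n ≤ β → n + β ≤ (ρ + 2) ^ m - 2 → Sv n (mainq c β : Reg m → Vx m s ρ)) ∧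
    (∀ q : Reg m → Vx m s ρ, Off q → Sv n q) := by
  intro n
  induction n with
  | zero => exact fun _ => ⟨fun _ _ _ _ h => h, fun _ _ h => h⟩
  | succ n ih =>
    intro hn
    obtain ⟨ih1, ih2⟩ := ih (by omega)
    have i0 : Fin m := ⟨0, hm⟩
    have h2m : 2 ≤ (ρ + 2) ^ m := by
      calc 2 ≤ ρ + 2 := by omega
        _ = (ρ + 2) ^ 1 := (pow_one _).symm
        _ ≤ (ρ + 2) ^ m := Nat.pow_le_pow_right (by omega) hm
    constructor
    · intro c β h1 h2
      apply sv_succ (valid_mainq c β)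
      intro x
      cases x with
      | z0 =>
        have ho : Off (mk .z0 .g i0 (.z i0) : Reg m → Vx m s ρ) := Off.C _ i0 _ (Or.inl rfl) rfl
        exact ans_id ho.valid (nb_main_mk (nb_of_ed' trivial) rfl (nb_z rfl)) ⟨.clk, rfl⟩
          (ih2 _ ho)
      | u =>
        have ho : Off (mk .u .g i0 (.z i0) : Reg m → Vx m s ρ) := Off.C _ i0 _ (Or.inr rfl) rfl
        exact ans_id ho.valid (nb_main_mk (nb_of_ed' trivial) rfl (nb_z rfl)) ⟨.clk, rfl⟩
          (ih2 _ ho)
      | K c' =>
        rcases fin3_cases c c' with h | h | h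
        · subst h
          exact ans_id (valid_mainq _ β) (fun r => Nb.refl _) ⟨.clk, rfl⟩
            (ih1 _ _ (by omega) (by omega))
        · subst h
          exact ans_id (valid_mainq _ (β + 1)) (nb_fwd c β) ⟨.clk, rfl⟩
            (ih1 _ _ (by omega) (by omega))
        · subst h
          exact ans_id (valid_mainq _ (β - 1)) (nb_bwd c β (by omega)) ⟨.clk, rfl⟩
            (ih1 _ _ (by omega) (by omega))
      | W k c' =>
        by_cases hk : k = .hlp
        · subst hk
          by_cases hc : c = c'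
          · subst hc
            refine ⟨mk (.W .hlp c) .g i0 (.z i0), (Off.BH c i0).valid,
              ⟨Equiv.swap .clk .hlp, ?_⟩, ⟨.clk, rfl⟩, ih2 _ (Off.BH c i0)⟩
            intro r
            cases r with
            | clk =>
              rw [Equiv.swap_apply_left]
              exact nb_of_ed trivial
            | hlp =>
              rw [Equiv.swap_apply_right]
              exact nb_of_ed' ⟨rfl, rfl⟩
            | cell j =>
              rw [Equiv.swap_apply_of_ne_of_ne (by simp) (by simp)]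
              show Nb _ (if j = i0 then Vx.z i0 else .z j)
              split_ifs with h
              · rw [← h]
                exact nb_z rfl
              · exact nb_z rfl
          · exact ans_id (Off.BH c' i0).valid (nb_main_mk (nb_of_ed hc) rfl (nb_z rfl))
              ⟨.clk, rfl⟩ (ih2 _ (Off.BH c' i0))
        · -- a cell witness or a clause witness
          have hex : ∃ i : Fin m, lit k i (dg ρ β i) (eb ρ β i) := by
            cases k with
            | hlp => exact absurd rfl hk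
            | pos i => exact ⟨i, rfl⟩
            | cl j => exact clause_main hm (by omega) j
          obtain ⟨i, hi⟩ := hex
          by_cases hc : c = c'
          · subst hc
            have ho : Off (mk (.W k c) .g i (.p i (c + 1) 0 true) : Reg m → Vx m s ρ) :=
              Off.B k c i _ _ ⟨_, _, hi⟩
            exact ⟨_, ho.valid, ⟨_, nb_main_mk_clk (nb_of_ed (Or.inr rfl)) rfl
              (nb_of_ed' ⟨rfl, hi⟩)⟩, ⟨.clk, rfl⟩, ih2 _ ho⟩
          · obtain ⟨a, e, hae⟩ := exists_time (s := s)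
              (x := .p i c (dg ρ β i) (eb ρ β i)) rfl (c' + 1)
            have ho : Off (mk (.W k c') .g i (.p i (c' + 1) a e) : Reg m → Vx m s ρ) :=
              Off.B k c' i _ _ ⟨_, _, hi⟩
            exact ans_id ho.valid (nb_main_mk (nb_of_ed hc) rfl hae) ⟨.clk, rfl⟩ (ih2 _ ho)
      | zh t =>
        have ho : Off (mk .u (.zh t) i0 (.z i0) : Reg m → Vx m s ρ) :=
          Off.C _ i0 _ (Or.inr rfl) rfl
        exact ans_id ho.valid (nb_main_mk (nb_of_ed' trivial) rfl (nb_z rfl)) ⟨.hlp, rfl⟩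
          (ih2 _ ho)
      | g =>
        have ho : Off (mk .u .g i0 (.z i0) : Reg m → Vx m s ρ) := Off.C _ i0 _ (Or.inr rfl) rfl
        exact ans_id ho.valid (nb_main_mk (nb_of_ed' trivial) rfl (nb_z rfl)) ⟨.hlp, rfl⟩
          (ih2 _ ho)
      | h c' =>
        have ho : Off (mk .u (.h c') i0 (.z i0) : Reg m → Vx m s ρ) :=
          Off.C _ i0 _ (Or.inr rfl) rfl
        exact ans_id ho.valid (nb_main_mk (nb_of_ed' trivial) rfl (nb_z rfl)) ⟨.hlp, rfl⟩
          (ih2 _ ho)
      | z i =>
        have ho : Off (mk .u .g i (.z i) : Reg m → Vx m s ρ) := Off.A i _ rfl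
        exact ans_id ho.valid (nb_main_mk (nb_of_ed' trivial) rfl (nb_z rfl))
          ⟨.cell i, if_pos rfl⟩ (ih2 _ ho)
      | p i c' a e =>
        have ho : Off (mk .u .g i (.p i c' a e) : Reg m → Vx m s ρ) := Off.A i _ rfl
        rcases fin3_cases c c' with h | h | h
        · exact ans_id ho.valid (nb_main_mk (nb_of_ed' trivial) rfl
            (nb_of_ed ⟨rfl, Or.inl h.symm⟩)) ⟨.cell i, if_pos rfl⟩ (ih2 _ ho)
        · exact ⟨_, ho.valid, ⟨_, nb_main_mk_clk (nb_of_ed (Or.inr h)) rfl
            (nb_of_ed' trivial)⟩, ⟨.cell i, if_pos rfl⟩, ih2 _ ho⟩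
        · have h3 : c = c' + 1 := by rw [h, fin3_add]
          exact ⟨_, ho.valid, ⟨_, nb_main_mk_hlp (nb_of_ed' trivial) (nb_of_ed h3)
            (nb_of_ed' trivial)⟩, ⟨.cell i, if_pos rfl⟩, ih2 _ ho⟩
    · intro q hq
      apply sv_succ hq.valid
      intro x
      obtain ⟨z, y, i, x0, hqe, hz, hzW, hzu, hz0, hy, hx0, hxy⟩ := hq.gen
      obtain ⟨b1, b2⟩ := near_bounds (β := mid m ρ) hm hn (Or.inr rfl)
      cases x with
      | z0 =>
        have ho : Off (mk .z0 .g i (.z i) : Reg m → Vx m s ρ) := Off.C _ i _ (Or.inl rfl) rfl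
        rw [hqe]
        exact ans_id ho.valid (nb_mk hz0 (nb_hlp hy rfl) (fun _ => nb_z hx0) hx0 rfl)
          ⟨.clk, rfl⟩ (ih2 _ ho)
      | u =>
        rw [hqe]
        exact ans_id (Off.A i x0 hx0).valid
          (nb_mk hzu (nb_hlp hy rfl) (fun _ => Nb.refl _) hx0 hx0) ⟨.clk, rfl⟩
          (ih2 _ (Off.A i x0 hx0))
      | K c =>
        cases hq with
        | A i x hx =>
          cases x with
          | z j =>
            cases hx
            exact ans_id (valid_mainq c (mid m ρ)) (nb_mk_main (nb_of_ed trivial) rfl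
              (nb_of_ed rfl)) ⟨.clk, rfl⟩ (ih1 _ _ b1 b2)
          | p j c1 a e =>
            cases hx
            rcases fin3_cases c c1 with h | h | h
            · exact ans_id (valid_mainq c (mid m ρ)) (nb_mk_main (nb_of_ed trivial) rfl
                (nb_of_ed ⟨rfl, Or.inl h⟩)) ⟨.clk, rfl⟩ (ih1 _ _ b1 b2)
            · exact ⟨mainq c (mid m ρ), valid_mainq _ _, ⟨_, nb_mk_main_clk
                (nb_of_ed' (Or.inr h)) rfl (nb_of_ed trivial)⟩, ⟨.clk, rfl⟩, ih1 _ _ b1 b2⟩
            · have h3 : c = c1 + 1 := by rw [h, fin3_add]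
              exact ⟨mainq c (mid m ρ), valid_mainq _ _, ⟨_, nb_mk_main_hlp
                (nb_of_ed trivial) (nb_of_ed' h3) (nb_of_ed trivial)⟩, ⟨.clk, rfl⟩,
                ih1 _ _ b1 b2⟩
          | _ => cases hx
        | C z i y hz hy =>
          have hzK : Nb z (.K c) := by
            rcases hz with rfl | rfl
            · exact nb_of_ed trivial
            · exact nb_of_ed trivial
          exact ans_id (valid_mainq c (mid m ρ)) (nb_mk_main hzK hy (nb_of_ed rfl))
            ⟨.clk, rfl⟩ (ih1 _ _ b1 b2)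
        | BH c0 i =>
          by_cases hc : c = c0
          · subst hc
            refine ⟨mainq c (mid m ρ), valid_mainq _ _, ⟨Equiv.swap .clk .hlp, ?_⟩,
              ⟨.clk, rfl⟩, ih1 _ _ b1 b2⟩
            intro r
            cases r with
            | clk =>
              rw [Equiv.swap_apply_left]
              exact nb_of_ed ⟨rfl, rfl⟩
            | hlp =>
              rw [Equiv.swap_apply_right]
              exact nb_of_ed' trivial
            | cell j =>
              rw [Equiv.swap_apply_of_ne_of_ne (by simp) (by simp)]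
              show Nb (if j = i then _ else _) _
              by_cases hj : j = i
              · subst hj
                rw [if_pos rfl]
                exact nb_of_ed rfl
              · rw [if_neg hj]
                exact nb_of_ed rfl
          · exact ans_id (valid_mainq c (mid m ρ)) (nb_mk_main (nb_of_ed' hc) rfl
              (nb_of_ed rfl)) ⟨.clk, rfl⟩ (ih1 _ _ b1 b2)
        | B k c0 i a e hi =>
          rcases fin3_cases c0 c with h | h | h
          · subst h
            obtain ⟨β, hβ, hlit⟩ := near_B hn hi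
            obtain ⟨b1, b2⟩ := near_bounds hm hn hβ
            exact ⟨mainq c β, valid_mainq _ _, ⟨_, nb_mk_main_clk (nb_of_ed' (Or.inr rfl)) rfl
              (nb_of_ed ⟨rfl, hlit⟩)⟩, ⟨.clk, rfl⟩, ih1 _ _ b1 b2⟩
          · subst h
            have hc : c0 + 1 ≠ c0 := fin3_n1 c0
            exact ans_id (valid_mainq _ (mid m ρ)) (nb_mk_main (nb_of_ed' hc) rfl
              (nb_of_ed ⟨rfl, Or.inl rfl⟩)) ⟨.clk, rfl⟩ (ih1 _ _ b1 b2)
          · subst h
            have hc : c0 + 2 ≠ c0 := fin3_n2 c0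
            exact ⟨mainq _ (mid m ρ), valid_mainq _ _, ⟨_, nb_mk_main_hlp
                (nb_of_ed' hc) (nb_of_ed' (fin3_add' c0).symm) (nb_of_ed trivial)⟩, ⟨.clk, rfl⟩,
                ih1 _ _ b1 b2⟩
      | W k c =>
        rw [hqe]
        by_cases hk : k = .hlp
        · subst hk
          exact ans_id (Off.BH c i).valid
            (nb_mk (hzW _ _) (nb_hlp hy rfl) (fun _ => nb_z hx0) hx0 rfl) ⟨.clk, rfl⟩
            (ih2 _ (Off.BH c i))
        · have hex : ∃ i' : Fin m, ∃ (a : Fin (ρ + 2)) (e : Bool), lit k i' a e := by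
            cases k with
            | hlp => exact absurd rfl hk
            | pos i => exact ⟨i, 0, true, rfl⟩
            | cl j =>
              rcases j with ⟨j, hj⟩
              cases j with
              | zero => exact ⟨⟨0, hm⟩, 0, true, Or.inr ⟨rfl, rfl⟩⟩
              | succ j => exact ⟨⟨j, by omega⟩, 0, false, Or.inl ⟨rfl, by simp⟩⟩
          obtain ⟨i', hi'⟩ := hex
          by_cases hii : i = i'
          · subst hii
            obtain ⟨a, e, hnb⟩ := exists_time hx0 (c + 1)
            have ho : Off (mk (.W k c) .g i (.p i (c + 1) a e) : Reg m → Vx m s ρ) :=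
              Off.B k c i a e hi'
            exact ans_id ho.valid (nb_mk (hzW _ _) (nb_hlp hy rfl) (fun _ => hnb) hx0 rfl)
              ⟨.clk, rfl⟩ (ih2 _ ho)
          · have ho : Off (mk (.W k c) .g i' (.p i' (c + 1) 0 true) : Reg m → Vx m s ρ) :=
              Off.B k c i' 0 true hi'
            exact ans_id ho.valid (nb_mk (hzW _ _) (nb_hlp hy rfl) (fun h => absurd h hii) hx0 rfl)
              ⟨.clk, rfl⟩ (ih2 _ ho)
      | zh t =>
        have ho : Off (mk .u (.zh t) i (.z i) : Reg m → Vx m s ρ) := Off.C _ i _ (Or.inr rfl) rfl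
        rw [hqe]
        exact ans_id ho.valid (nb_mk hzu (nb_hlp hy rfl) (fun _ => nb_z hx0) hx0 rfl)
          ⟨.hlp, rfl⟩ (ih2 _ ho)
      | g =>
        have ho : Off (mk .u .g i (.z i) : Reg m → Vx m s ρ) := Off.C _ i _ (Or.inr rfl) rfl
        rw [hqe]
        exact ans_id ho.valid (nb_mk hzu (nb_hlp hy rfl) (fun _ => nb_z hx0) hx0 rfl)
          ⟨.hlp, rfl⟩ (ih2 _ ho)
      | h c =>
        have ho : Off (mk .u (.h c) i (.z i) : Reg m → Vx m s ρ) := Off.C _ i _ (Or.inr rfl) rfl
        rw [hqe]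
        exact ans_id ho.valid (nb_mk hzu (nb_hlp hy rfl) (fun _ => nb_z hx0) hx0 rfl)
          ⟨.hlp, rfl⟩ (ih2 _ ho)
      | z j =>
        rw [hqe]
        exact ans_id (Off.A j (.z j) rfl).valid
          (nb_mk hzu (nb_hlp hy rfl) (fun h => by subst h; exact nb_z hx0) hx0 rfl)
          ⟨.cell j, if_pos rfl⟩ (ih2 _ (Off.A j _ rfl))
      | p j c a e =>
        rw [hqe]
        have ho : Off (mk .u .g j (.p j c a e) : Reg m → Vx m s ρ) := Off.A j _ rfl
        by_cases hid : i = j ∧ x0 ≠ .z i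
        · obtain ⟨rfl, hx1⟩ := hid
          have hyg : y = .g := by
            rcases hxy with h | h
            · exact absurd h hx1
            · exact h
          subst hyg
          refine ⟨_, ho.valid, ⟨Equiv.swap .hlp (.cell i), ?_⟩, ⟨.cell i, if_pos rfl⟩, ih2 _ ho⟩
          intro r
          cases r with
          | clk =>
            rw [Equiv.swap_apply_of_ne_of_ne (by simp) (by simp)]
            exact hzu
          | hlp =>
            rw [Equiv.swap_apply_left]
            show Nb _ (if i = i then _ else _)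
            rw [if_pos rfl]
            exact nb_of_ed trivial
          | cell l =>
            by_cases hl : l = i
            · subst hl
              rw [Equiv.swap_apply_right]
              show Nb (if l = l then _ else _) _
              rw [if_pos rfl]
              cases x0 with
              | z j => cases hx0; exact absurd rfl hx1
              | p j c a b => exact nb_of_ed' trivial
              | _ => cases hx0
            · rw [Equiv.swap_apply_of_ne_of_ne (by simp) (by simpa using hl)]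
              show Nb (if l = i then _ else _) (if l = i then _ else _)
              rw [if_neg hl, if_neg hl]
              exact Nb.refl _
        · refine ans_id ho.valid (nb_mk hzu (nb_hlp hy rfl) (fun h => ?_) hx0 rfl)
            ⟨.cell j, if_pos rfl⟩ (ih2 _ ho)
          subst h
          have : x0 = .z i := by
            by_contra hne
            exact hid ⟨rfl, hne⟩
          rw [this]
          exact nb_of_ed rfl

theorem card_conf {q : Reg m → Vx m s ρ} (h : Valid q) : (conf q).card = m + 2 := by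
  rw [conf, Finset.card_image_of_injective _ h.inj, Finset.card_univ, card_reg]

/-- A configuration of `m + 2` guards from which the defender survives `mid m ρ - 1` attacks. -/
theorem exists_survivor (hm : 0 < m) : ∃ C : Finset (Vx m s ρ), C.card = m + 2 ∧
    ¬ AttackerWins (Gr m s ρ) (mid m ρ - 1) C := by
  refine ⟨conf (mainq 0 (mid m ρ - 1)), card_conf (valid_mainq _ _), ?_⟩
  have h1 := two_mid (ρ := ρ) hm
  exact (survive hm (mid m ρ - 1) le_rfl).1 0 (mid m ρ - 1) le_rfl (by omega)

end Pool.Agent.KS6_62.ME
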