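import Pool.Agent.KS6_62.ME.Attack
import Pool.Agent.KS6_62.ME.Defend

/-!
# The m-eternal domination number of the graph is `m + 3`
-/

set_option autoImplicit false

namespace Pool.Agent.KS6_62.ME

variable {m s ρ : ℕ}

theorem nb_u {x : Vx m s ρ} (h : reg x = .clk) : Nb x .u := by
  cases x <;> simp_all [reg, nb_iff, Ed]

theorem insert_update {α : Type*} {V : Type*} [DecidableEq V] [DecidableEq α] [Fintype α]
    (q : α → V) (r : α) (x u : V) :
    insert x (Finset.univ.image (Function.update q r u)) =
      insert u (Finset.univ.image (Function.update q r x)) := by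
  have key : ∀ x u : V, insert x (Finset.univ.image (Function.update q r u)) ⊆
      insert u (Finset.univ.image (Function.update q r x)) := by
    intro x u v hv
    rw [Finset.mem_insert, Finset.mem_image] at hv
    rw [Finset.mem_insert, Finset.mem_image]
    rcases hv with rfl | ⟨r', -, rfl⟩
    · exact Or.inr ⟨r, Finset.mem_univ _, by simp⟩
    · by_cases h : r' = r
      · subst h
        exact Or.inl (by simp)
      · exact Or.inr ⟨r', Finset.mem_univ _, by simp [Function.update_of_ne h]⟩
  exact Finset.Subset.antisymm (key x u) (key u x)

theorem ne_u {q : Reg m → Vx m s ρ} (hq : Valid q) (hu : q .clk ≠ .u) (r : Reg m) :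
    q r ≠ .u := by
  intro h
  have h1 := hq r
  rw [h] at h1
  change Reg.clk = r at h1
  subst h1
  exact hu h

/-- An m-eternal dominating set with `m + 3` guards. -/
theorem eternal_insert {q : Reg m → Vx m s ρ} (hq : Valid q) (hu : q .clk ≠ .u) :
    Eternal (Gr m s ρ) (insert .u (conf q)) := by
  refine ⟨{D | ∃ q : Reg m → Vx m s ρ, Valid q ∧ q .clk ≠ .u ∧ D = insert .u (conf q)},
    ⟨q, hq, hu, rfl⟩, ?_⟩
  clear hu hq q
  rintro _ ⟨q, hq, hu, rfl⟩ x
  by_cases hx : x ∈ insert Vx.u (conf q)
  · exact ⟨_, ⟨q, hq, hu, rfl⟩, Response.refl _, hx⟩
  have hxu : x ≠ .u := fun h => hx (h ▸ Finset.mem_insert_self _ _)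
  have hxq : ∀ r, q r ≠ x := fun r h =>
    hx (Finset.mem_insert_of_mem (Finset.mem_image.mpr ⟨r, Finset.mem_univ _, h⟩))
  have hvalid : Valid (Function.update q (reg x) x) := by
    intro r
    by_cases h : r = reg x
    · subst h
      simp
    · rw [Function.update_of_ne h]
      exact hq r
  have hclk : Function.update q (reg x) x .clk ≠ .u := by
    by_cases h : Reg.clk = reg x
    · rw [h]
      simpa using hxu
    · rw [Function.update_of_ne h]
      exact hu
  refine ⟨insert .u (conf (Function.update q (reg x) x)), ⟨_, hvalid, hclk, rfl⟩, ?_,
    Finset.mem_insert_of_mem (Finset.mem_image.mpr ⟨reg x, Finset.mem_univ _, by simp⟩)⟩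
  -- direct moves
  have direct : Nb (q (reg x)) x →
      Response (Gr m s ρ) (insert .u (conf q)) (insert .u (conf (Function.update q (reg x) x))) := by
    intro hn
    refine ⟨fun v => if v = q (reg x) then x else v, ?_, ?_, ?_⟩
    · intro v _
      by_cases h : v = q (reg x)
      · simp only [h, if_true]
        rcases hn with h1 | h1
        · exact Or.inl h1.symm
        · exact Or.inr h1
      · left
        simp [h]
    · intro v hv v' hv' he
      have hv1 : v ≠ x := by
        rintro rfl
        exact hx (Finset.mem_coe.mp hv)
      have hv2 : v' ≠ x := by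
        rintro rfl
        exact hx (Finset.mem_coe.mp hv')
      by_cases h : v = q (reg x) <;> by_cases h' : v' = q (reg x)
      · rw [h, h']
      · simp only [h, h', if_true, if_false] at he
        exact absurd he.symm hv2
      · simp only [h, h', if_true, if_false] at he
        exact absurd he hv1
      · simpa only [h, h', if_false] using he
    · rw [Finset.image_insert, if_neg (ne_u hq hu _).symm, conf, conf, Finset.image_image]
      congr 2
      funext r
      by_cases h : r = reg x
      · rw [h]
        simp
      · rw [Function.update_of_ne h]
        have : q r ≠ q (reg x) := fun h' => h (hq.inj h')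
        simp [this]
  -- moves through the universal position
  have through : Nb .u x → Nb (q (reg x)) .u →
      Response (Gr m s ρ) (insert .u (conf q)) (insert .u (conf (Function.update q (reg x) x))) := by
    intro h1 h2
    refine ⟨fun v => if v = .u then x else if v = q (reg x) then .u else v, ?_, ?_, ?_⟩
    · intro v _
      by_cases hvu : v = .u
      · simp only [hvu, if_true]
        rcases h1 with h3 | h3
        · exact Or.inl h3.symm
        · exact Or.inr h3
      · by_cases h : v = q (reg x)
        · simp only [h, ne_u hq hu, if_true, if_false]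
          rcases h2 with h3 | h3
          · exact Or.inl h3.symm
          · exact Or.inr h3
        · left
          simp [hvu, h]
    · intro v hv v' hv' he
      have hv1 : v ≠ x := by
        rintro rfl
        exact hx (Finset.mem_coe.mp hv)
      have hv2 : v' ≠ x := by
        rintro rfl
        exact hx (Finset.mem_coe.mp hv')
      simp only at he
      split_ifs at he with a1 a2 a3 a4 a5 a6 a7 a8
      all_goals first
        | exact a1.trans a2.symm
        | exact a3.trans a4.symm
        | simp_all
    · rw [Finset.image_insert, if_pos rfl, conf, conf, Finset.image_image, ← insert_update]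
      congr 2
      funext r
      by_cases h : r = reg x
      · rw [h]
        simp [ne_u hq hu]
      · rw [Function.update_of_ne h]
        have : q r ≠ q (reg x) := fun h' => h (hq.inj h')
        simp [this, ne_u hq hu]
  cases hr : reg x with
  | clk =>
    rw [← hr]
    apply through
    · exact (nb_u hr).symm
    · apply nb_u
      rw [hq, hr]
  | hlp =>
    rw [← hr]
    apply direct
    exact nb_hlp (by rw [hq, hr]) hr
  | cell i =>
    rw [← hr]
    have hqr : reg (q (reg x)) = .cell i := by rw [hq, hr]
    by_cases hxz : x = .z i
    · apply direct
      nth_rewrite 2 [hxz]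
      exact nb_z hqr
    by_cases hqz : q (reg x) = .z i
    · apply direct
      rw [hqz]
      exact (nb_z hr).symm
    · apply through
      · cases x with
        | z j => cases hr; exact absurd rfl hxz
        | p j c a e => exact nb_of_ed trivial
        | _ => cases hr
      · generalize q (reg x) = y at hqr hqz
        cases y with
        | z j => cases hqr; exact absurd rfl hqz
        | p j c a e => exact nb_of_ed' trivial
        | _ => cases hqr

theorem gammaM_gr (hm : 0 < m) : gammaM (Gr m s ρ) = m + 3 := by
  apply le_antisymm _ (le_gammaM_gr hm)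
  have hq : Valid (mainq 0 0 : Reg m → Vx m s ρ) := valid_mainq _ _
  have hu : (mainq 0 0 : Reg m → Vx m s ρ) .clk ≠ .u := by
    intro h
    cases h
  have h := gammaM_le_of_eternal (eternal_insert hq hu)
  rw [Finset.card_insert_of_notMem, card_conf hq] at h
  · exact h
  · intro hmem
    obtain ⟨r, -, hr⟩ := Finset.mem_image.mp hmem
    exact ne_u hq hu r hr

end Pool.Agent.KS6_62.ME
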