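import Mathlib

/-!
# The m-eternal domination game

Definitions of the game, and the general upper bound: every graph on `n` vertices is defeated in
`n.choose (n / 2)` attacks.
-/

set_option autoImplicit false

namespace Pool.Agent.KS6_62.ME

section game

variable {V : Type*} [DecidableEq V] (G : SimpleGraph V)

/-- A response of the defender: from the configuration `C` (the set of occupied vertices) every
guard stays or crosses exactly one edge, the guards end on pairwise distinct vertices, and the new
configuration is `D`. -/
def Response (C D : Finset V) : Prop :=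
  ∃ f : V → V, (∀ v ∈ C, f v = v ∨ G.Adj v (f v)) ∧ Set.InjOn f C ∧ C.image f = D

/-- From the configuration `C` the attacker has a strategy that wins within at most `k` attacks,
against every response of the defender: he attacks a vertex `a`, and after every response that
occupies `a` (if there is one; otherwise he has won) he wins within `k - 1` more attacks. -/
def AttackerWins : ℕ → Finset V → Prop
  | 0, _ => False
  | k + 1, C => ∃ a, ∀ D, Response G C D → a ∈ D → AttackerWins k D

/-- `C` is an m-eternal dominating set: the defender can respond to every attack forever, i.e. `C`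
belongs to a family of configurations within which every attack can be answered. -/
def Eternal (C : Finset V) : Prop :=
  ∃ F : Set (Finset V), C ∈ F ∧ ∀ D ∈ F, ∀ a, ∃ E ∈ F, Response G D E ∧ a ∈ E

/-- The m-eternal domination number: the minimum size of an m-eternal dominating set. -/
noncomputable def gammaM : ℕ := sInf {m : ℕ | ∃ C : Finset V, C.card = m ∧ Eternal G C}

/-- `G` is defeated in `k` attacks: for every configuration `C` with at most `γ - 1` guards the
attacker has a strategy that wins within at most `k` attacks. -/
def DefeatedIn (k : ℕ) : Prop := ∀ C : Finset V, C.card + 1 ≤ gammaM G → AttackerWins G k C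

variable {G}

theorem AttackerWins.succ {k : ℕ} {C : Finset V} (h : AttackerWins G k C) :
    AttackerWins G (k + 1) C := by
  induction k generalizing C with
  | zero => exact h.elim
  | succ k ih =>
    obtain ⟨a, ha⟩ := h
    exact ⟨a, fun C' h1 h2 => ih (ha C' h1 h2)⟩

theorem AttackerWins.mono {k l : ℕ} {C : Finset V} (h : AttackerWins G k C) (hkl : k ≤ l) :
    AttackerWins G l C := by
  induction hkl with
  | refl => exact h
  | step _ ih => exact AttackerWins.succ ih

theorem not_eternal {k : ℕ} {C : Finset V} (h : AttackerWins G k C) : ¬ Eternal G C := by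
  rintro ⟨F, hC, hF⟩
  induction k generalizing C with
  | zero => exact h
  | succ k ih =>
    obtain ⟨a, ha⟩ := h
    obtain ⟨C', h1, h2, h3⟩ := hF C hC a
    exact ih (ha C' h2 h3) h1

theorem Response.card_eq {C D : Finset V} (h : Response G C D) : D.card = C.card := by
  obtain ⟨f, -, h2, rfl⟩ := h
  exact Finset.card_image_of_injOn h2

theorem Response.refl (C : Finset V) : Response G C C :=
  ⟨id, fun _ _ => Or.inl rfl, Set.injOn_id _, by simp⟩

/-- All vertices occupied: an m-eternal dominating set. -/
theorem eternal_univ [Fintype V] : Eternal G (Finset.univ : Finset V) :=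
  ⟨{Finset.univ}, rfl, by
    rintro D rfl a
    exact ⟨Finset.univ, rfl, Response.refl _, Finset.mem_univ _⟩⟩

theorem gammaM_le_of_eternal {C : Finset V} (h : Eternal G C) : gammaM G ≤ C.card :=
  Nat.sInf_le ⟨C, rfl, h⟩

theorem le_gammaM [Fintype V] {k : ℕ} (h : ∀ C : Finset V, Eternal G C → k ≤ C.card) :
    k ≤ gammaM G := by
  apply le_csInf
  · exact ⟨_, Finset.univ, rfl, eternal_univ⟩
  · rintro _ ⟨C, rfl, hC⟩
    exact h C hC

/-- Every configuration with fewer guards than the m-eternal domination number is lost within
`n.choose j` attacks, where `n` is the number of vertices and `j` the number of guards. -/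
theorem attackerWins_choose [Fintype V] {C : Finset V} (hC : C.card + 1 ≤ gammaM G) :
    AttackerWins G ((Fintype.card V).choose C.card) C := by
  classical
  set j := C.card with hj
  let S : ℕ → Finset (Finset V) := fun t =>
    (Finset.powersetCard j Finset.univ).filter fun D => ¬ AttackerWins G t D
  have hmem : ∀ t D, D ∈ S t ↔ D.card = j ∧ ¬ AttackerWins G t D := by
    intro t D
    simp [S, Finset.mem_powersetCard]
  have hsub : ∀ t, S (t + 1) ⊆ S t := by
    intro t D hD
    rw [hmem] at hD ⊢
    exact ⟨hD.1, fun h => hD.2 h.succ⟩
  have hstab : ∀ t, S (t + 1) = S t → S t = ∅ := by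
    intro t ht
    by_contra hne
    obtain ⟨D, hD⟩ := Finset.nonempty_iff_ne_empty.mpr hne
    have hE : Eternal G D := by
      refine ⟨{D | D ∈ S t}, hD, ?_⟩
      intro D' hD' a
      have h1 : D' ∈ S (t + 1) := by rw [ht]; exact hD'
      rw [hmem] at h1
      obtain ⟨h2, h3⟩ := h1
      simp only [AttackerWins, not_exists, not_forall] at h3
      obtain ⟨E, hE1, hE2, hE3⟩ := h3 a
      refine ⟨E, ?_, hE1, hE2⟩
      show E ∈ S t
      rw [hmem]
      exact ⟨by rw [hE1.card_eq, h2], hE3⟩
    have h4 := gammaM_le_of_eternal hE
    rw [hmem] at hD
    omega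
  have hcard : ∀ t, S t ≠ ∅ → (S t).card + t ≤ (Fintype.card V).choose j := by
    intro t
    induction t with
    | zero =>
      intro _
      have h1 : (S 0).card ≤ (Finset.powersetCard j (Finset.univ : Finset V)).card :=
        Finset.card_filter_le _ _
      rw [Finset.card_powersetCard, Finset.card_univ] at h1
      simpa using h1
    | succ t ih =>
      intro hne
      have h1 : S t ≠ ∅ := by
        intro h0
        apply hne
        have := hsub t
        rw [h0] at this
        exact Finset.subset_empty.mp this
      have h2 : S (t + 1) ≠ S t := fun h => h1 (hstab t h)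
      have h3 : (S (t + 1)).card < (S t).card :=
        Finset.card_lt_card (Finset.ssubset_iff_subset_ne.mpr ⟨hsub t, h2⟩)
      have h4 := ih h1
      omega
  by_contra hlose
  have h1 : C ∈ S ((Fintype.card V).choose j) := by
    rw [hmem]
    exact ⟨hj.symm, hlose⟩
  have h2 : S ((Fintype.card V).choose j) ≠ ∅ := Finset.ne_empty_of_mem h1
  have h3 := hcard _ h2
  have h4 : 0 < (S ((Fintype.card V).choose j)).card := Finset.card_pos.mpr ⟨C, h1⟩
  omega

/-- Every graph on `n` vertices is defeated in `n.choose (n / 2)` attacks. -/
theorem defeatedIn_choose [Fintype V] :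
    DefeatedIn G ((Fintype.card V).choose (Fintype.card V / 2)) := by
  intro C hC
  exact (attackerWins_choose hC).mono (Nat.choose_le_middle _ _)

end game

end Pool.Agent.KS6_62.ME
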