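import Pool.Agent.KS6_62.ME.Game

/-!
# The clocked counter graph

`r = ρ + 2` is the base of the counter, `m` is the number of its digits.
-/

set_option autoImplicit false

namespace Pool.Agent.KS6_62.ME

/-- Kinds of witnesses: for the helper, for a cell, for a clause of the counter. -/
inductive Wit (m : ℕ)
  | hlp
  | pos (i : Fin m)
  | cl (j : Fin (m + 1))
  deriving DecidableEq, Fintype

/-- The vertices: centre `z0`, universal position `u`, clock positions `K c` and witnesses `W k c`
of the clock region; the centres `zh t`, the universal position `g` and the timed positions `h c`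
of the helper region; the centre `z i` and the timed positions `p i c a e` of the cell `i`. -/
inductive Vx (m s ρ : ℕ)
  | z0
  | u
  | K (c : Fin 3)
  | W (k : Wit m) (c : Fin 3)
  | zh (t : Fin (s + 1))
  | g
  | h (c : Fin 3)
  | z (i : Fin m)
  | p (i : Fin m) (c : Fin 3) (a : Fin (ρ + 2)) (e : Bool)
  deriving DecidableEq, Fintype

/-- The regions. -/
inductive Reg (m : ℕ)
  | clk
  | hlp
  | cell (i : Fin m)
  deriving DecidableEq, Fintype

variable {m s ρ : ℕ}

/-- The literals of a witness: the positions `(a, e)` of the cell `i` that dominate the witness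
(at the right time). -/
def lit : Wit m → Fin m → Fin (ρ + 2) → Bool → Prop
  | .hlp, _, _, _ => False
  | .pos i, j, _, _ => i = j
  | .cl j, i, a, e =>
    (i.val + 1 = j.val ∧ ¬ (a.val = ρ + 1 ∧ e = true)) ∨ (i.val = j.val ∧ e = true)

/-- The next digit. -/
def nxt (a : Fin (ρ + 2)) (e : Bool) : Fin (ρ + 2) :=
  ⟨(a.val + if e then 1 else 0) % (ρ + 2), Nat.mod_lt _ (by omega)⟩

theorem nxt_false (a : Fin (ρ + 2)) : nxt a false = a := by
  apply Fin.ext
  simp [nxt, Nat.mod_eq_of_lt a.2]

/-- Directed form of the adjacency. -/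
def Ed : Vx m s ρ → Vx m s ρ → Prop
  | .z0, .u => True
  | .z0, .K _ => True
  | .z0, .W _ _ => True
  | .u, .K _ => True
  | .u, .W _ _ => True
  | .u, .p _ _ _ _ => True
  | .K _, .K _ => True
  | .W _ _, .W _ _ => True
  | .K c, .W _ c' => c ≠ c'
  | .zh _, .zh _ => True
  | .zh _, .g => True
  | .zh _, .h _ => True
  | .g, .h _ => True
  | .h _, .h _ => True
  | .z i, .p j _ _ _ => i = j
  | .p i c a e, .p j c' a' _ => i = j ∧ (c = c' ∨ (c' = c + 1 ∧ a' = nxt a e))
  | .K c, .p _ c' _ _ => c' = c ∨ c' = c + 1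
  | .K _, .g => True
  | .h c, .p _ c' _ _ => c = c' + 1
  | .g, .p _ _ _ _ => True
  | .W k c, .h c' => k = .hlp ∧ c = c'
  | .W k c, .p i c' a e => c = c' ∧ lit k i a e
  | _, _ => False

/-- The graph. -/
def Gr (m s ρ : ℕ) : SimpleGraph (Vx m s ρ) where
  Adj x y := x ≠ y ∧ (Ed x y ∨ Ed y x)
  symm := ⟨fun _ _ h => ⟨h.1.symm, h.2.symm⟩⟩
  loopless := ⟨fun _ h => h.1 rfl⟩

/-- Equal or adjacent. -/
def Nb (x y : Vx m s ρ) : Prop := x = y ∨ (Gr m s ρ).Adj x y

theorem Nb.refl (x : Vx m s ρ) : Nb x x := Or.inl rfl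

theorem nb_of_ed {x y : Vx m s ρ} (h : Ed x y) : Nb x y := by
  by_cases hxy : x = y
  · exact Or.inl hxy
  · exact Or.inr ⟨hxy, Or.inl h⟩

theorem nb_of_ed' {x y : Vx m s ρ} (h : Ed y x) : Nb x y := by
  by_cases hxy : x = y
  · exact Or.inl hxy
  · exact Or.inr ⟨hxy, Or.inr h⟩

theorem nb_iff {x y : Vx m s ρ} : Nb x y ↔ x = y ∨ Ed x y ∨ Ed y x := by
  constructor
  · rintro (h | h)
    · exact Or.inl h
    · exact Or.inr h.2
  · rintro (h | h | h)
    · exact Or.inl h
    · exact nb_of_ed h
    · exact nb_of_ed' h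

theorem Nb.symm {x y : Vx m s ρ} (h : Nb x y) : Nb y x := by
  rw [nb_iff] at h ⊢
  rcases h with h | h | h
  · exact Or.inl h.symm
  · exact Or.inr (Or.inr h)
  · exact Or.inr (Or.inl h)

/-- The region of a vertex. -/
def reg : Vx m s ρ → Reg m
  | .z0 => .clk
  | .u => .clk
  | .K _ => .clk
  | .W _ _ => .clk
  | .zh _ => .hlp
  | .g => .hlp
  | .h _ => .hlp
  | .z i => .cell i
  | .p i _ _ _ => .cell i

/-- The centre of a region. -/
def ctr : Reg m → Vx m s ρ
  | .clk => .z0
  | .hlp => .zh 0
  | .cell i => .z i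

theorem nb_ctr_iff {r : Reg m} {x : Vx m s ρ} : Nb x (ctr r) ↔ reg x = r := by
  rw [nb_iff]
  cases r <;> cases x <;> simp [ctr, reg, Ed, eq_comm]

theorem card_reg : Fintype.card (Reg m) = m + 2 := by
  have e : Reg m ≃ Option (Option (Fin m)) :=
    { toFun := fun r => match r with
        | .clk => none
        | .hlp => some none
        | .cell i => some (some i)
      invFun := fun r => match r with
        | none => .clk
        | some none => .hlp
        | some (some i) => .cell i
      left_inv := by intro r; cases r <;> rfl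
      right_inv := by intro r; rcases r with _ | _ | _ <;> rfl }
  rw [Fintype.card_congr e]
  simp

theorem card_wit : Fintype.card (Wit m) = 2 * m + 2 := by
  have e : Wit m ≃ Option (Fin m ⊕ Fin (m + 1)) :=
    { toFun := fun r => match r with
        | .hlp => none
        | .pos i => some (Sum.inl i)
        | .cl j => some (Sum.inr j)
      invFun := fun r => match r with
        | none => .hlp
        | some (Sum.inl i) => .pos i
        | some (Sum.inr j) => .cl j
      left_inv := by intro r; cases r <;> rfl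
      right_inv := by intro r; rcases r with _ | _ | _ <;> rfl }
  rw [Fintype.card_congr e]
  simp
  ring

theorem card_vx : Fintype.card (Vx m s ρ) = (6 * (ρ + 2) + 7) * m + 16 + s := by
  have e : Vx m s ρ ≃ (Unit ⊕ Unit) ⊕ Fin 3 ⊕ (Wit m × Fin 3) ⊕ Fin (s + 1) ⊕ Unit ⊕ Fin 3 ⊕
      Fin m ⊕ (Fin m × Fin 3 × Fin (ρ + 2) × Bool) :=
    { toFun := fun x => match x with
        | .z0 => .inl (.inl ())
        | .u => .inl (.inr ())
        | .K c => .inr (.inl c)
        | .W k c => .inr (.inr (.inl (k, c)))
        | .zh t => .inr (.inr (.inr (.inl t)))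
        | .g => .inr (.inr (.inr (.inr (.inl ()))))
        | .h c => .inr (.inr (.inr (.inr (.inr (.inl c)))))
        | .z i => .inr (.inr (.inr (.inr (.inr (.inr (.inl i))))))
        | .p i c a b => .inr (.inr (.inr (.inr (.inr (.inr (.inr (i, c, a, b)))))))
      invFun := fun x => match x with
        | .inl (.inl ()) => .z0
        | .inl (.inr ()) => .u
        | .inr (.inl c) => .K c
        | .inr (.inr (.inl (k, c))) => .W k c
        | .inr (.inr (.inr (.inl t))) => .zh t
        | .inr (.inr (.inr (.inr (.inl ())))) => .g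
        | .inr (.inr (.inr (.inr (.inr (.inl c))))) => .h c
        | .inr (.inr (.inr (.inr (.inr (.inr (.inl i)))))) => .z i
        | .inr (.inr (.inr (.inr (.inr (.inr (.inr (i, c, a, b))))))) => .p i c a b
      left_inv := by intro x; cases x <;> rfl
      right_inv := by
        intro x
        rcases x with (_ | _) | _ | ⟨_, _⟩ | _ | _ | _ | _ | ⟨_, _, _, _⟩ <;> rfl }
  rw [Fintype.card_congr e]
  simp only [Fintype.card_sum, Fintype.card_prod, Fintype.card_unit, Fintype.card_fin, card_wit,
    Fintype.card_bool]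
  ring

/-- The graph is connected. -/
theorem connected : (Gr m s ρ).Connected := by
  have hr : ∀ {x y : Vx m s ρ}, Nb x y → (Gr m s ρ).Reachable x y := by
    intro x y h
    rcases h with h | h
    · rw [h]
    · exact h.reachable
  have key : ∀ x : Vx m s ρ, (Gr m s ρ).Reachable .z0 x := by
    have hK : ∀ c, (Gr m s ρ).Reachable .z0 (.K c) := fun c => hr (nb_of_ed trivial)
    have hp : ∀ i c a b, (Gr m s ρ).Reachable .z0 (.p i c a b) := fun i c a b =>
      (hK c).trans (hr (nb_of_ed (Or.inl rfl)))
    have hg : (Gr m s ρ).Reachable .z0 .g := (hK 0).trans (hr (nb_of_ed trivial))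
    intro x
    cases x with
    | z0 => exact SimpleGraph.Reachable.refl _
    | u => exact hr (nb_of_ed trivial)
    | K c => exact hK c
    | W k c => exact hr (nb_of_ed trivial)
    | zh t => exact hg.trans (hr (nb_of_ed' trivial))
    | g => exact hg
    | h c => exact hg.trans (hr (nb_of_ed trivial))
    | z i => exact (hp i 0 0 true).trans (hr (nb_of_ed' rfl))
    | p i c a b => exact hp i c a b
  have : Nonempty (Vx m s ρ) := ⟨.z0⟩
  exact SimpleGraph.Connected.mk fun x y => (key x).symm.trans (key y)

end Pool.Agent.KS6_62.ME
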